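import Mathlib

/-!
# Non-power words whose image misses regular semisimple elements of `PSL₂(q)`, all characteristics

Let `A, B ∈ SL₂(K)` have the same trace `a`, for instance `B = y A y⁻¹`.

* For `W = A³ B² A B⁻¹ A⁻¹ B² A⁻³ B⁻¹` one has `tr W = Q² - 2`, where
  `Q = a (1 + (a² - 1) (tr [A, B⁻¹] - 2))` (`tr_wordOdd`, valid over every commutative ring).  So
  the word `W(x, y x y⁻¹)`, which is not a proper power, takes on `SL₂(K)` only values `g` for which
  `tr g + 2` is a square of `K`.  For every finite field `K` of odd order `> 5` there is `a ≠ 2` with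
  `a` and `4 - a` nonsquares, and the elements of `PSL₂(K)` with trace `± (a - 2)` are missed.
* In characteristic two, for `V = A⁴ B A B⁴ A B` one has `tr V = z³ + z` with `z = a² tr (A B)`
  (`tr_wordEven`), and `z ↦ z³ + z` is not surjective on a finite field of characteristic two.
-/

set_option autoImplicit false

open Matrix Polynomial

namespace Pool.Agent.Results.MP_11bee9_al.TypeA1EveryPrime

/-! ### Definitions used in the statement -/

/-- The word map of `w ∈ F₂` (the free group on two letters) on a group `G`: substitute `x`, `y`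
for the two free generators. -/
def wordMap {G : Type*} [Group G] (w : FreeGroup (Fin 2)) (x y : G) : G :=
  FreeGroup.lift ![x, y] w

/-- `w ∈ F₂` is a power word if `w = v ^ k` for some `v ∈ F₂` and some `k ≥ 2`. -/
def IsPowerWord (w : FreeGroup (Fin 2)) : Prop :=
  ∃ (v : FreeGroup (Fin 2)) (k : ℕ), 2 ≤ k ∧ w = v ^ k

/-- `PSL₂(K)`, the Chevalley group of (adjoint) type `A₁` over the field `K`. -/
abbrev PSL (K : Type) [Field K] := Matrix.ProjectiveSpecialLinearGroup (Fin 2) K

/-- Regular semisimple elements of `PSL₂(K)`, `K` of characteristic `p`: the order is prime to `p`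
and a matrix `M ∈ SL₂(K)` representing `g` has two distinct eigenvalues in an algebraic closure
(its characteristic polynomial is separable).  The second condition says that the algebra of
matrices commuting with `M` has dimension two, that is, that the centraliser of `g` in the ambient
simple algebraic group `PGL₂` has dimension one, the rank. -/
def IsRegularSemisimple (p : ℕ) {K : Type} [Field K] (g : PSL K) : Prop :=
  (orderOf g).Coprime p ∧
    ∃ M : SpecialLinearGroup (Fin 2) K, (QuotientGroup.mk M : PSL K) = g ∧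
      (M : Matrix (Fin 2) (Fin 2) K).charpoly.Separable

/-! ### Trace identities -/


section traces

variable {K : Type*} [CommRing K]

/-- the matrix of an element of SL₂ -/
def mx : SpecialLinearGroup (Fin 2) K →* Matrix (Fin 2) (Fin 2) K where
  toFun g := g.1
  map_one' := rfl
  map_mul' _ _ := rfl

/-- trace of an element of SL₂ -/
def tr (g : SpecialLinearGroup (Fin 2) K) : K := (mx g).trace

lemma mx_inv (g : SpecialLinearGroup (Fin 2) K) :
    mx g⁻¹ = tr g • (1 : Matrix (Fin 2) (Fin 2) K) - mx g := by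
  have h : mx g⁻¹ = adjugate (mx g) := rfl
  rw [h, adjugate_fin_two, tr, trace_fin_two]
  ext i j
  fin_cases i <;> fin_cases j <;> simp

lemma tr_mul_comm (g h : SpecialLinearGroup (Fin 2) K) : tr (g * h) = tr (h * g) := by
  simp only [tr, map_mul]
  exact trace_mul_comm _ _

lemma tr_inv (g : SpecialLinearGroup (Fin 2) K) : tr g⁻¹ = tr g := by
  rw [tr, mx_inv, trace_sub, trace_smul, trace_one]
  simp [tr]; ring

lemma tr_one : tr (1 : SpecialLinearGroup (Fin 2) K) = 2 := by
  simp [tr]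

lemma tr_mul_inv (g h : SpecialLinearGroup (Fin 2) K) :
    tr (g * h⁻¹) = tr g * tr h - tr (g * h) := by
  rw [tr, map_mul, mx_inv, mul_sub, trace_sub, mul_smul_comm, trace_smul, mul_one]
  simp only [tr, map_mul, smul_eq_mul]
  ring

lemma tr_conj (g h : SpecialLinearGroup (Fin 2) K) : tr (g * h * g⁻¹) = tr h := by
  rw [tr_mul_comm, ← mul_assoc, inv_mul_cancel, one_mul]

/-- `tr (g g h) = tr g tr (g h) - tr h` -/
lemma tr_sq_mul (g h : SpecialLinearGroup (Fin 2) K) :
    tr (g * g * h) = tr g * tr (g * h) - tr h := by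
  have h1 := tr_mul_inv (g * h) g
  have h2 : tr (g * h * g⁻¹) = tr h := tr_conj g h
  have h3 : tr (g * h * g) = tr (g * g * h) := by rw [tr_mul_comm, mul_assoc]
  rw [h2, h3] at h1
  linear_combination h1

lemma CH (g : SpecialLinearGroup (Fin 2) K) : mx g * mx g = tr g • mx g - 1 := by
  have h1 : mx g * mx g⁻¹ = 1 := by
    rw [← map_mul, mul_inv_cancel, map_one]
  rw [mx_inv, mul_sub, mul_smul_comm, mul_one] at h1
  rw [← h1]; abel

/-- commutator traces -/
lemma tr_comm_lin (A X B : SpecialLinearGroup (Fin 2) K) (u v : K)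
    (hX : mx X = u • mx A - v • 1) :
    tr (X * B⁻¹ * X⁻¹ * B) = u ^ 2 * (tr (A * B⁻¹ * A⁻¹ * B) - 2) +
      2 * (u ^ 2 - u * v * tr A + v ^ 2) := by
  have hXt : tr X = u * tr A - 2 * v := by
    rw [tr, hX, trace_sub, trace_smul, trace_smul, trace_one]
    simp [tr]; ring
  have hXi : mx X⁻¹ = u • mx A⁻¹ - v • 1 := by
    rw [mx_inv, mx_inv, hX, hXt]
    module
  have e3 : mx B⁻¹ * mx B = 1 := by
    rw [← map_mul, inv_mul_cancel, map_one]
  have e1 : mx A * mx B⁻¹ * mx B = mx A := by
    rw [mul_assoc, e3, mul_one]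
  have e4 : tr (B⁻¹ * A⁻¹ * B) = tr A := by
    have := tr_conj B⁻¹ A⁻¹
    rw [inv_inv, tr_inv] at this
    exact this
  have expand : mx X * mx B⁻¹ * mx X⁻¹ * mx B
     = u ^ 2 • (mx A * mx B⁻¹ * mx A⁻¹ * mx B)
      - (u * v) • (mx A * mx B⁻¹ * mx B)
      - (u * v) • (mx B⁻¹ * mx A⁻¹ * mx B)
      + v ^ 2 • (mx B⁻¹ * mx B) := by
    rw [hX, hXi]
    simp only [sub_mul, mul_sub, smul_mul_assoc, mul_smul_comm, one_mul, mul_one, smul_sub,
      smul_smul]
    module
  have : tr (X * B⁻¹ * X⁻¹ * B) = trace (mx X * mx B⁻¹ * mx X⁻¹ * mx B) := by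
    simp only [tr, map_mul]
  rw [this, expand, e1, e3]
  simp only [trace_add, trace_sub, trace_smul, smul_eq_mul]
  have f1 : trace (mx A * mx B⁻¹ * mx A⁻¹ * mx B) = tr (A * B⁻¹ * A⁻¹ * B) := by
    simp only [tr, map_mul]
  have f2 : trace (mx B⁻¹ * mx A⁻¹ * mx B) = tr A := by
    rw [← e4]; simp only [tr, map_mul]
  have f3 : trace (mx A) = tr A := rfl
  have f4 : trace (1 : Matrix (Fin 2) (Fin 2) K) = 2 := by simp
  rw [f1, f2, f3, f4]
  ring

lemma mx_cube (A : SpecialLinearGroup (Fin 2) K) :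
    mx (A ^ 3) = (tr A ^ 2 - 1) • mx A - tr A • 1 := by
  have h : mx (A ^ 3) = mx A * (mx A * mx A) := by
    rw [pow_succ, pow_two, map_mul, map_mul, mul_assoc]
  rw [h, CH, mul_sub, mul_smul_comm, CH, mul_one]
  module

lemma mx_four (A : SpecialLinearGroup (Fin 2) K) :
    mx (A ^ 4) = (tr A ^ 3 - 2 * tr A) • mx A - (tr A ^ 2 - 1) • 1 := by
  have h : mx (A ^ 4) = mx A * mx (A ^ 3) := by
    rw [← map_mul, ← pow_succ']
  rw [h, mx_cube, mul_sub, mul_smul_comm, CH, mul_smul_comm, mul_one]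
  module

/-- the word for odd characteristic -/
def wordOdd {G : Type*} [Group G] (A B : G) : G :=
  A ^ 3 * B ^ 2 * A * B⁻¹ * A⁻¹ * B ^ 2 * (A ^ 3)⁻¹ * B⁻¹

theorem tr_wordOdd (A B : SpecialLinearGroup (Fin 2) K) (h : tr A = tr B) :
    tr (wordOdd A B) = (tr A * (1 + (tr A ^ 2 - 1) * (tr (A * B⁻¹ * A⁻¹ * B) - 2))) ^ 2 - 2 := by
  set k := tr (A * B⁻¹ * A⁻¹ * B) - 2 with hk
  -- the two factors
  let M1 := B * B * (A * B⁻¹ * A⁻¹)
  let M2 := B * B * ((A ^ 3)⁻¹ * B⁻¹ * A ^ 3)
  have hW : tr (wordOdd A B) = tr (M1 * M2) := by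
    have : wordOdd A B = A ^ 3 * (M1 * M2) * (A ^ 3)⁻¹ := by
      simp only [wordOdd, M1, M2, pow_two]
      group
    rw [this, tr_conj]
  have hM1 : tr M1 = tr A * (k + 1) := by
    have h1 := tr_sq_mul B (A * B⁻¹ * A⁻¹)
    have h2 : tr (B * (A * B⁻¹ * A⁻¹)) = k + 2 := by
      rw [tr_mul_comm]; simp [k]
    have h3 : tr (A * B⁻¹ * A⁻¹) = tr B := by rw [tr_conj, tr_inv]
    rw [h2, h3] at h1
    simp only [M1]
    rw [h1, h]; ring
  have hM2 : tr M2 = tr A * ((tr A ^ 2 - 1) ^ 2 * k + 1) := by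
    have h1 := tr_sq_mul B ((A ^ 3)⁻¹ * B⁻¹ * A ^ 3)
    have h2 : tr (B * ((A ^ 3)⁻¹ * B⁻¹ * A ^ 3)) = (tr A ^ 2 - 1) ^ 2 * k + 2 := by
      have e : tr (B * ((A ^ 3)⁻¹ * B⁻¹ * A ^ 3)) = tr (A ^ 3 * B⁻¹ * (A ^ 3)⁻¹ * B) := by
        rw [← tr_inv, show (B * ((A ^ 3)⁻¹ * B⁻¹ * A ^ 3))⁻¹ = (A ^ 3)⁻¹ * (B * A ^ 3 * B⁻¹) by group,
          tr_mul_comm, show B * A ^ 3 * B⁻¹ * (A ^ 3)⁻¹ = B * (A ^ 3 * B⁻¹ * (A ^ 3)⁻¹) by group,
          tr_mul_comm]
      rw [e, tr_comm_lin A (A ^ 3) B _ _ (mx_cube A)]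
      simp only [k]; ring
    have h3 : tr ((A ^ 3)⁻¹ * B⁻¹ * A ^ 3) = tr B := by
      have := tr_conj (A ^ 3)⁻¹ B⁻¹
      rw [inv_inv, tr_inv] at this
      exact this
    rw [h2, h3] at h1
    simp only [M2]
    rw [h1, h]; ring
  have hM12 : tr (M1 * M2⁻¹) = (tr A ^ 3 - 2 * tr A) ^ 2 * k + 2 := by
    have e : M1 * M2⁻¹ = (B * B) * (A * B⁻¹ * A⁻¹ * (A ^ 3)⁻¹ * B * A ^ 3) * (B * B)⁻¹ := by
      simp only [M1, M2]; group
    rw [e, tr_conj]
    have e2 : tr (A * B⁻¹ * A⁻¹ * (A ^ 3)⁻¹ * B * A ^ 3) = tr (A ^ 4 * B⁻¹ * (A ^ 4)⁻¹ * B) := by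
      rw [tr_mul_comm]
      congr 1
      group
    rw [e2, tr_comm_lin A (A ^ 4) B _ _ (mx_four A)]
    simp only [k]; ring
  have := tr_mul_inv M1 M2
  rw [hM12, hM1, hM2] at this
  rw [hW]
  linear_combination this


/-- the word for characteristic two -/
def wordEven {G : Type*} [Group G] (A B : G) : G :=
  A ^ 4 * B * A * B ^ 4 * A * B

theorem tr_wordEven_gen (A B : SpecialLinearGroup (Fin 2) K) (h : tr A = tr B) :
    tr (wordEven A B) =
      (tr A ^ 3 - 2 * tr A) ^ 2 * (tr (A * B) ^ 3 - 3 * tr (A * B))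
      - 2 * (tr A ^ 3 - 2 * tr A) * (tr A ^ 2 - 1) *
        (tr A * (tr (A * B) ^ 2 - 2) - tr A * tr (A * B) + tr A)
      + (tr A ^ 2 - 1) ^ 2 * (tr A ^ 2 * tr (A * B) - 2 * tr A ^ 2 + 2) := by
  set a := tr A with ha
  set u := tr (A * B) with hu
  have hu' : tr (B * A) = u := by rw [tr_mul_comm]
  have expand : mx (wordEven A B) =
      (a ^ 3 - 2 * a) ^ 2 • (mx A * (mx B * mx A) * mx B * (mx A * mx B))
      - ((a ^ 3 - 2 * a) * (a ^ 2 - 1)) • (mx A * (mx B * mx A) * (mx A * mx B))
      - ((a ^ 3 - 2 * a) * (a ^ 2 - 1)) • ((mx B * mx A) * mx B * (mx A * mx B))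
      + (a ^ 2 - 1) ^ 2 • ((mx B * mx A) * (mx A * mx B)) := by
    have e1 : mx (wordEven A B) = mx (A ^ 4) * (mx B * mx A) * mx (B ^ 4) * (mx A * mx B) := by
      simp only [wordEven, map_mul, mul_assoc]
    rw [e1, mx_four, mx_four, ← h]
    simp only [sub_mul, mul_sub, smul_mul_assoc, mul_smul_comm, one_mul, mul_one, smul_sub,
      smul_smul]
    module
  have t1 : trace (mx A * (mx B * mx A) * mx B * (mx A * mx B)) = u ^ 3 - 3 * u := by
    have e : mx A * (mx B * mx A) * mx B * (mx A * mx B) = mx ((A * B) * (A * B) * (A * B)) := by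
      simp only [map_mul, mul_assoc]
    rw [e]
    change tr _ = _
    rw [tr_sq_mul, show A * B * (A * B) = A * B * (A * B) * 1 by rw [mul_one], tr_sq_mul, mul_one,
      tr_one]
    ring
  have t2 : trace (mx A * (mx B * mx A) * (mx A * mx B)) = a * (u ^ 2 - 2) - a * u + a := by
    have e : mx A * (mx B * mx A) * (mx A * mx B) = mx (A * (B * (A * A * B))) := by
      simp only [map_mul, mul_assoc]
    rw [e]
    change tr _ = _
    rw [tr_mul_comm, show B * (A * A * B) * A = (B * (A * A * B)) * A by rfl]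
    have e2 : tr (B * (A * A * B) * A) = tr (A * A * (B * A * B)) := by
      rw [tr_mul_comm, show A * (B * (A * A * B)) = (A * B) * (A * A * B) by group, tr_mul_comm,
        show A * A * B * (A * B) = A * A * (B * A * B) by group]
    rw [e2, tr_sq_mul]
    have e3 : tr (A * (B * A * B)) = u ^ 2 - 2 := by
      rw [show A * (B * A * B) = A * B * (A * B) * 1 by group, tr_sq_mul, mul_one, tr_one]
      ring
    have e4 : tr (B * A * B) = a * u - a := by
      rw [tr_mul_comm, show B * (B * A) = B * B * A by group, tr_sq_mul, hu', ← h]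
    rw [e3, e4]
    ring
  have t3 : trace ((mx B * mx A) * mx B * (mx A * mx B)) = a * (u ^ 2 - 2) - a * u + a := by
    have e : (mx B * mx A) * mx B * (mx A * mx B) = mx (B * (A * B * A * B)) := by
      simp only [map_mul, mul_assoc]
    rw [e]
    change tr _ = _
    have e2 : tr (B * (A * B * A * B)) = tr (B * B * (A * B * A)) := by
      rw [tr_mul_comm, show A * B * A * B * B = (A * B * A) * (B * B) by group, tr_mul_comm]
    rw [e2, tr_sq_mul]
    have e3 : tr (B * (A * B * A)) = u ^ 2 - 2 := by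
      rw [show B * (A * B * A) = B * A * (B * A) * 1 by group, tr_sq_mul, mul_one, tr_one, hu']
      ring
    have e4 : tr (A * B * A) = a * u - a := by
      rw [tr_mul_comm, show A * (A * B) = A * A * B by group, tr_sq_mul, ← h]
    rw [e3, e4, ← h]
    ring
  have t4 : trace ((mx B * mx A) * (mx A * mx B)) = a ^ 2 * u - 2 * a ^ 2 + 2 := by
    have e : (mx B * mx A) * (mx A * mx B) = mx (B * (A * A * B)) := by
      simp only [map_mul, mul_assoc]
    rw [e]
    change tr _ = _
    have e2 : tr (B * (A * A * B)) = tr (A * A * (B * B)) := by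
      rw [tr_mul_comm, mul_assoc]
    rw [e2, tr_sq_mul]
    have e3 : tr (A * (B * B)) = a * u - a := by
      rw [tr_mul_comm, tr_sq_mul, hu', ← h]
    have e4 : tr (B * B) = a ^ 2 - 2 := by
      rw [show B * B = B * B * 1 by rw [mul_one], tr_sq_mul, mul_one, tr_one, ← h]
      ring
    rw [e3, e4]
    ring
  rw [tr, expand]
  simp only [trace_add, trace_sub, trace_smul, smul_eq_mul]
  rw [t1, t2, t3, t4]
  ring

theorem tr_wordEven (h2 : (2 : K) = 0) (A B : SpecialLinearGroup (Fin 2) K) (h : tr A = tr B) :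
    tr (wordEven A B) = (tr A ^ 2 * tr (A * B)) ^ 3 + tr A ^ 2 * tr (A * B) := by
  rw [tr_wordEven_gen A B h]
  set a := tr A
  set u := tr (A * B)
  have key : (a ^ 3 - 2 * a) ^ 2 * (u ^ 3 - 3 * u)
      - 2 * (a ^ 3 - 2 * a) * (a ^ 2 - 1) * (a * (u ^ 2 - 2) - a * u + a)
      + (a ^ 2 - 1) ^ 2 * (a ^ 2 * u - 2 * a ^ 2 + 2) - ((a ^ 2 * u) ^ 3 + a ^ 2 * u) =
      2 * (-(2 * a ^ 4 - 2 * a ^ 2) * (u ^ 3 - 3 * u) - 2 * a ^ 6 * u + a ^ 6 * u
        - (a ^ 3 - 2 * a) * (a ^ 2 - 1) * (a * (u ^ 2 - 2) - a * u + a)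
        - a ^ 4 * u + (a ^ 2 - 1) ^ 2 * (1 - a ^ 2)) := by
    ring
  have : (2 : K) * (-(2 * a ^ 4 - 2 * a ^ 2) * (u ^ 3 - 3 * u) - 2 * a ^ 6 * u + a ^ 6 * u
        - (a ^ 3 - 2 * a) * (a ^ 2 - 1) * (a * (u ^ 2 - 2) - a * u + a)
        - a ^ 4 * u + (a ^ 2 - 1) ^ 2 * (1 - a ^ 2)) = 0 := by rw [h2, zero_mul]
  rw [this] at key
  exact sub_eq_zero.1 key


end traces

/-! ### The two words are not proper powers -/




def wO : FreeGroup (Fin 2) :=
  wordOdd (FreeGroup.of 0) (FreeGroup.of 1 * FreeGroup.of 0 * (FreeGroup.of 1)⁻¹)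

def wE : FreeGroup (Fin 2) :=
  wordEven (FreeGroup.of 0) (FreeGroup.of 1 * FreeGroup.of 0 * (FreeGroup.of 1)⁻¹)

lemma wordMap_wO {G : Type*} [Group G] (x y : G) : wordMap wO x y = wordOdd x (y * x * y⁻¹) := by
  simp [wordMap, wO, wordOdd]

lemma wordMap_wE {G : Type*} [Group G] (x y : G) : wordMap wE x y = wordEven x (y * x * y⁻¹) := by
  simp [wordMap, wE, wordEven]

/-- exponent sum in the first letter -/
noncomputable def ex : FreeGroup (Fin 2) →* Multiplicative ℤ :=
  FreeGroup.lift ![Multiplicative.ofAdd 1, 1]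

lemma ex_wO : ex wO = Multiplicative.ofAdd 2 := by
  change wordMap wO _ _ = _
  rw [wordMap_wO]
  decide

lemma ex_wE : ex wE = Multiplicative.ofAdd 12 := by
  change wordMap wE _ _ = _
  rw [wordMap_wE]
  decide






def xO : Equiv.Perm (Fin 6) := ⟨![2,1,4,5,3,0], ![5,1,0,4,2,3], by decide, by decide⟩
def yO : Equiv.Perm (Fin 6) := ⟨![5,4,1,0,3,2], ![3,2,5,4,1,0], by decide, by decide⟩
def xE : Equiv.Perm (Fin 6) := ⟨![2,3,5,0,4,1], ![3,5,0,1,4,2], by decide, by decide⟩
def yE : Equiv.Perm (Fin 6) := ⟨![0,1,2,4,5,3], ![0,1,2,5,3,4], by decide, by decide⟩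
def xE' : Equiv.Perm (Fin 5) := ⟨![0,2,3,4,1], ![0,4,1,2,3], by decide, by decide⟩
def yE' : Equiv.Perm (Fin 5) := ⟨![1,0,2,3,4], ![1,0,2,3,4], by decide, by decide⟩

lemma nonsq_O : ∀ v : Equiv.Perm (Fin 6), v * v ≠ wordMap wO xO yO := by
  rw [wordMap_wO]
  decide +kernel





lemma nonsq_E : ∀ v : Equiv.Perm (Fin 6), v * v ≠ wordMap wE xE yE := by
  rw [wordMap_wE]
  decide +kernel

lemma noncube_E : ∀ v : Equiv.Perm (Fin 5), v * v * v ≠ wordMap wE xE' yE' := by
  rw [wordMap_wE]
  decide +kernel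

lemma wordMap_pow {G : Type*} [Group G] (v : FreeGroup (Fin 2)) (k : ℕ) (x y : G) :
    wordMap (v ^ k) x y = (wordMap v x y) ^ k := by
  simp [wordMap]

lemma exp_dvd (w v : FreeGroup (Fin 2)) (k n : ℕ) (hw : ex w = Multiplicative.ofAdd (n : ℤ))
    (h : w = v ^ k) : k ∣ n := by
  rw [h, map_pow] at hw
  have h1 : (k : ℤ) * Multiplicative.toAdd (ex v) = n := by
    have := congrArg Multiplicative.toAdd hw
    simpa using this
  have h2 : (k : ℤ) ∣ n := ⟨_, h1.symm⟩
  exact_mod_cast h2

theorem wO_not_power : ¬ IsPowerWord wO := by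
  rintro ⟨v, k, hk, h⟩
  have hd := exp_dvd wO v k 2 (by rw [ex_wO]; rfl) h
  have hk2 : k = 2 := by
    have := Nat.le_of_dvd (by norm_num) hd
    omega
  subst hk2
  apply nonsq_O (wordMap v xO yO)
  rw [h, wordMap_pow, pow_two]

theorem wE_not_power : ¬ IsPowerWord wE := by
  rintro ⟨v, k, hk, h⟩
  have hd := exp_dvd wE v k 12 (by rw [ex_wE]; rfl) h
  have hk' : 2 ∣ k ∨ 3 ∣ k := by
    have : k ≤ 12 := Nat.le_of_dvd (by norm_num) hd
    interval_cases k <;> omega
  rcases hk' with ⟨m, rfl⟩ | ⟨m, rfl⟩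
  · apply nonsq_E (wordMap v xE yE ^ m)
    rw [h, wordMap_pow, ← pow_add]
    congr 1
    ring
  · apply noncube_E (wordMap v xE' yE' ^ m)
    rw [h, wordMap_pow, ← pow_add, ← pow_add]
    congr 1
    ring


/-! ### Two nonsquares with sum four -/


/-- In a finite field of odd characteristic with more than five elements there is a nonsquare
`a ≠ 2` such that `4 - a` is also a nonsquare. -/
lemma exists_nonsq (K : Type*) [Field K] [Finite K] (h2 : (2 : K) ≠ 0) (hc : 5 < Nat.card K) :
    ∃ a : K, ¬ IsSquare a ∧ ¬ IsSquare (4 - a) ∧ a ≠ 2 := by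
  classical
  have := Fintype.ofFinite K
  by_contra hcon
  push Not at hcon
  -- `hcon : ∀ a, ¬ IsSquare a → ¬ IsSquare (4 - a) → a = 2`
  have hchar : ringChar K ≠ 2 := by
    intro h
    apply h2
    have := ringChar.Nat.cast_ringChar (R := K)
    rw [h] at this
    exact_mod_cast this
  obtain ⟨ν, hν⟩ := FiniteField.exists_nonsquare hchar
  let S : Finset K := Finset.univ.filter fun a => IsSquare a ∧ a ≠ 0
  let N : Finset K := Finset.univ.filter fun a => ¬ IsSquare a
  have hν0 : ν ≠ 0 := by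
    rintro rfl
    exact hν ⟨0, by simp⟩
  have hSN : S.card ≤ N.card := by
    apply Finset.card_le_card_of_injOn (fun s => ν * s)
    · intro s hs
      simp only [S, N, Finset.coe_filter, Finset.mem_univ, true_and, Set.mem_ofPred_eq] at hs ⊢
      intro hsq
      apply hν
      have : ν = (ν * s) / s := by field_simp [hs.2]
      rw [this]
      exact hsq.div hs.1
    · intro a _ b _ hab
      exact mul_left_cancel₀ hν0 hab
  have h4 : (4 : K) ≠ 0 := by
    have : (4 : K) = 2 * 2 := by norm_num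
    rw [this]; exact mul_ne_zero h2 h2
  have h4S : (4 : K) ∈ S := by
    simp only [S, Finset.mem_filter, Finset.mem_univ, true_and]
    exact ⟨⟨2, by norm_num⟩, h4⟩
  -- the map `a ↦ 4 - a` sends `N \ {2}` to `S \ {4}`
  have hmaps : ∀ a ∈ N.erase 2, 4 - a ∈ S.erase 4 := by
    intro a ha
    rw [Finset.mem_erase] at ha
    simp only [N, Finset.mem_filter, Finset.mem_univ, true_and] at ha
    rw [Finset.mem_erase]
    refine ⟨?_, ?_⟩
    · intro h
      have : a = 0 := by linear_combination -h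
      apply ha.2
      rw [this]; exact ⟨0, by simp⟩
    · simp only [S, Finset.mem_filter, Finset.mem_univ, true_and]
      refine ⟨?_, ?_⟩
      · by_contra hns
        exact ha.1 (hcon a ha.2 hns)
      · intro h
        apply ha.2
        have : a = 4 := by linear_combination -h
        rw [this]; exact ⟨2, by norm_num⟩
  have hinj : Function.Injective (fun a : K => 4 - a) := by
    intro a b hab
    have : 4 - a = 4 - b := hab
    linear_combination -this
  have himg : (N.erase 2).image (fun a => 4 - a) ⊆ S.erase 4 := by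
    intro s hs
    rw [Finset.mem_image] at hs
    obtain ⟨a, ha, rfl⟩ := hs
    exact hmaps a ha
  have hcard1 : (S.erase 4).card ≤ ((N.erase 2).image (fun a => 4 - a)).card := by
    rw [Finset.card_image_of_injective _ hinj, Finset.card_erase_of_mem h4S]
    have := Finset.pred_card_le_card_erase (s := N) (a := 2)
    omega
  have heq := Finset.eq_of_subset_of_card_le himg hcard1
  -- consequence: for nonzero squares `s ≠ 4`, `4 - s` is a nonsquare
  have hS4 : ∀ s : K, IsSquare s → s ≠ 0 → s ≠ 4 → ¬ IsSquare (4 - s) := by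
    intro s hs hs0 hs4
    have hmem : s ∈ S.erase 4 := by
      rw [Finset.mem_erase]
      simp only [S, Finset.mem_filter, Finset.mem_univ, true_and]
      exact ⟨hs4, hs, hs0⟩
    rw [← heq, Finset.mem_image] at hmem
    obtain ⟨a, ha, rfl⟩ := hmem
    rw [Finset.mem_erase] at ha
    simp only [N, Finset.mem_filter, Finset.mem_univ, true_and] at ha
    have : (4 : K) - (4 - a) = a := by ring
    rw [this]
    exact ha.2
  have hS1 : ∀ r : K, IsSquare r → r ≠ 0 → r ≠ 1 → ¬ IsSquare (1 - r) := by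
    intro r hr hr0 hr1 hsq
    have h4sq : IsSquare (4 : K) := ⟨2, by norm_num⟩
    apply hS4 (4 * r) (h4sq.mul hr) (mul_ne_zero h4 hr0)
    · intro h
      apply hr1
      have : (4 : K) * (r - 1) = 0 := by linear_combination h
      rcases mul_eq_zero.1 this with h' | h'
      · exact absurd h' h4
      · linear_combination h'
    · have : (4 : K) - 4 * r = 4 * (1 - r) := by ring
      rw [this]
      exact h4sq.mul hsq
  -- choose `x` with `x ≠ 0` and `x ^ 4 ≠ 1`
  obtain ⟨x, hx0, hx4⟩ : ∃ x : K, x ≠ 0 ∧ x ^ 4 ≠ 1 := by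
    by_contra hno
    push Not at hno
    have hsub : (Finset.univ : Finset K) ⊆ insert 0 (Polynomial.nthRoots 4 (1 : K)).toFinset := by
      intro x _
      rw [Finset.mem_insert]
      by_cases hx : x = 0
      · exact Or.inl hx
      · right
        rw [Multiset.mem_toFinset, Polynomial.mem_nthRoots (by norm_num)]
        exact hno x hx
    have h1 := Finset.card_le_card hsub
    have h2 := Finset.card_insert_le (0 : K) (Polynomial.nthRoots 4 (1 : K)).toFinset
    have h3 := (Polynomial.nthRoots 4 (1 : K)).toFinset_card_le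
    have h4 := Polynomial.card_nthRoots 4 (1 : K)
    rw [Finset.card_univ, ← Nat.card_eq_fintype_card] at h1
    omega
  set r := x ^ 2 with hr
  have hrsq : IsSquare r := ⟨x, by rw [hr]; ring⟩
  have hr0 : r ≠ 0 := pow_ne_zero _ hx0
  have hr1 : r ≠ 1 := by
    intro h
    apply hx4
    calc x ^ 4 = r ^ 2 := by rw [hr]; ring
      _ = 1 := by rw [h]; ring
  have hrm1 : r ≠ -1 := by
    intro h
    apply hx4
    calc x ^ 4 = r ^ 2 := by rw [hr]; ring
      _ = 1 := by rw [h]; ring
  have hA : ¬ IsSquare (1 - r) := hS1 r hrsq hr0 hr1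
  have hB : ¬ IsSquare (1 - r⁻¹) := by
    apply hS1 _ hrsq.inv (inv_ne_zero hr0)
    intro h
    exact hr1 (by rw [← inv_inv r, h, inv_one])
  -- products of two nonsquares are squares
  have hmulsq : ∀ a b : K, ¬ IsSquare a → ¬ IsSquare b → IsSquare (a * b) := by
    intro a b ha hb
    have ha0 : a ≠ 0 := by rintro rfl; exact ha ⟨0, by simp⟩
    have hb0 : b ≠ 0 := by rintro rfl; exact hb ⟨0, by simp⟩
    have h1 : quadraticChar K a = -1 := (quadraticChar_neg_one_iff_not_isSquare).2 ha
    have h2 : quadraticChar K b = -1 := (quadraticChar_neg_one_iff_not_isSquare).2 hb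
    rw [← quadraticChar_one_iff_isSquare (mul_ne_zero ha0 hb0), map_mul, h1, h2]
    norm_num
  have hm1 : IsSquare (-1 : K) := by
    have h1 := hmulsq _ _ hA hB
    have h2 : (-1 : K) = ((1 - r) * (1 - r⁻¹)) * (r * ((1 - r)⁻¹) ^ 2) := by
      have : (1 : K) - r ≠ 0 := sub_ne_zero.2 (Ne.symm hr1)
      field_simp
      ring
    rw [h2]
    exact h1.mul (hrsq.mul ⟨(1 - r)⁻¹, by ring⟩)
  have hC : ¬ IsSquare (1 + r) := by
    have := hS1 (-r) (by rw [← neg_one_mul]; exact hm1.mul hrsq) (neg_ne_zero.2 hr0)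
      (by intro h; exact hrm1 (by linear_combination -h))
    rwa [sub_neg_eq_add] at this
  have hD : IsSquare (1 - r ^ 2) := by
    have := hmulsq _ _ hA hC
    have e : (1 - r) * (1 + r) = 1 - r ^ 2 := by ring
    rwa [e] at this
  apply hS1 (r ^ 2) ⟨r, by ring⟩ (pow_ne_zero _ hr0) _ hD
  intro h
  have : (r - 1) * (r + 1) = 0 := by linear_combination h
  rcases mul_eq_zero.1 this with h' | h'
  · exact hr1 (by linear_combination h')
  · exact hrm1 (by linear_combination h')


/-! ### Orders of regular semisimple elements -/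



lemma coprime_of_separable (p : ℕ) [Fact p.Prime] (K : Type) [Field K] [Finite K] [CharP K p]
    (M : SpecialLinearGroup (Fin 2) K)
    (hM : (M : Matrix (Fin 2) (Fin 2) K).charpoly.Separable) :
    (orderOf (QuotientGroup.mk M : PSL K)).Coprime p := by
  have hp : p.Prime := Fact.out
  rw [Nat.coprime_comm, hp.coprime_iff_not_dvd]
  intro hdvd
  have : Finite (SpecialLinearGroup (Fin 2) K) := inferInstance
  have : Finite (PSL K) := inferInstance
  set g : PSL K := QuotientGroup.mk M with hg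
  obtain ⟨m, hm⟩ := hdvd
  have hm0 : 0 < m := by
    have := orderOf_pos g
    rw [hm] at this
    exact Nat.pos_of_mul_pos_left this |> fun h => by
      rcases Nat.eq_zero_or_pos m with h' | h'
      · subst h'; simp at this
      · exact h'
  have h1 : g ^ m ≠ 1 := by
    intro h
    have := orderOf_dvd_of_pow_eq_one h
    rw [hm] at this
    have := Nat.le_of_dvd hm0 this
    have := hp.two_le
    nlinarith
  have h2 : (QuotientGroup.mk (M ^ (m * p)) : PSL K) = 1 := by
    rw [QuotientGroup.mk_pow, ← hg, mul_comm, ← hm, pow_orderOf_eq_one]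
  rw [QuotientGroup.eq_one_iff, Matrix.SpecialLinearGroup.mem_center_iff] at h2
  obtain ⟨ζ, hζ, hζ'⟩ := h2
  rw [Fintype.card_fin] at hζ
  have hζp : ζ ^ p = ζ := by
    have : (ζ - 1) * (ζ + 1) = 0 := by linear_combination hζ
    rcases mul_eq_zero.1 this with h | h
    · have : ζ = 1 := by linear_combination h
      rw [this, one_pow]
    · have : ζ = -1 := by linear_combination h
      rw [this]
      have : ExpChar K p := ExpChar.prime hp
      have := map_neg (frobenius K p) 1
      simpa [frobenius_def] using this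
  -- the endomorphism
  let f : Module.End K (Fin 2 → K) := Matrix.toLin' (M : Matrix (Fin 2) (Fin 2) K)
  have hf : f.IsSemisimple := by
    apply Module.End.isSemisimple_of_squarefree_aeval_eq_zero hM.squarefree
    have h3 : aeval f (M : Matrix (Fin 2) (Fin 2) K).charpoly =
        Matrix.toLin' (aeval (M : Matrix (Fin 2) (Fin 2) K) (M : Matrix (Fin 2) (Fin 2) K).charpoly) := by
      have := Polynomial.aeval_algHom_apply (Matrix.toLinAlgEquiv' (R := K) (n := Fin 2)).toAlgHom
        (M : Matrix (Fin 2) (Fin 2) K) (M : Matrix (Fin 2) (Fin 2) K).charpoly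
      exact this
    rw [h3, Matrix.aeval_self_charpoly, map_zero]
  have hfm : (f ^ m).IsSemisimple := hf.pow m
  have hfζ : (f ^ m - algebraMap K (Module.End K (Fin 2 → K)) ζ).IsSemisimple :=
    Module.End.isSemisimple_sub_algebraMap_iff.2 hfm
  have hfpow : ∀ k : ℕ, f ^ k = Matrix.toLin' (((M ^ k : SpecialLinearGroup (Fin 2) K) : Matrix (Fin 2) (Fin 2) K)) := by
    intro k
    rw [Matrix.SpecialLinearGroup.coe_pow]
    exact (Matrix.toLin'_pow _ _).symm
  have hnil : IsNilpotent (f ^ m - algebraMap K (Module.End K (Fin 2 → K)) ζ) := by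
    refine ⟨p, ?_⟩
    have : CharP (Module.End K (Fin 2 → K)) p := by
      exact charP_of_injective_algebraMap (FaithfulSMul.algebraMap_injective K (Module.End K (Fin 2 → K))) p
    rw [sub_pow_char_of_commute (R := Module.End K (Fin 2 → K)) (p := p) (h := (Algebra.commutes ζ (f ^ m)).symm), ← pow_mul, hfpow, ← hζ',
      ← map_pow, hζp]
    have : Matrix.toLin' ((scalar (Fin 2)) ζ) = algebraMap K (Module.End K (Fin 2 → K)) ζ := by
      ext i j
      simp [Matrix.toLin'_apply, scalar_apply, Module.algebraMap_end_apply, Matrix.mulVec_diagonal]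
    rw [this, sub_self]
  have hzero := Module.End.eq_zero_of_isNilpotent_isSemisimple hnil hfζ
  apply h1
  rw [hg, ← QuotientGroup.mk_pow, QuotientGroup.eq_one_iff, Matrix.SpecialLinearGroup.mem_center_iff]
  refine ⟨ζ, by rw [Fintype.card_fin]; exact hζ, ?_⟩
  have h5 : f ^ m = algebraMap K (Module.End K (Fin 2 → K)) ζ := sub_eq_zero.1 hzero
  rw [hfpow] at h5
  have : Matrix.toLin' ((scalar (Fin 2)) ζ) = algebraMap K (Module.End K (Fin 2 → K)) ζ := by
    ext i j
    simp [Matrix.toLin'_apply, scalar_apply, Module.algebraMap_end_apply, Matrix.mulVec_diagonal]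
  rw [← this] at h5
  exact (Matrix.toLin'.injective h5).symm


/-! ### The companion matrix and the main theorem -/

/-- the companion matrix with trace `t` and determinant `1` -/
def comp {K : Type} [Field K] (t : K) : SpecialLinearGroup (Fin 2) K :=
  ⟨!![t, -1; 1, 0], by simp [Matrix.det_fin_two_of]⟩

lemma tr_comp {K : Type} [Field K] (t : K) : tr (comp t) = t := by
  simp [tr, mx, comp, Matrix.trace_fin_two]

lemma comp_separable {K : Type} [Field K] (t : K) (ht : t ^ 2 ≠ 4) :
    ((comp t : SpecialLinearGroup (Fin 2) K) : Matrix (Fin 2) (Fin 2) K).charpoly.Separable := by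
  have h1 : ((comp t : SpecialLinearGroup (Fin 2) K) : Matrix (Fin 2) (Fin 2) K).charpoly =
      X ^ 2 - C t * X + 1 := by
    rw [Matrix.charpoly_fin_two]
    simp [comp, Matrix.trace_fin_two, Matrix.det_fin_two]
  rw [h1, Polynomial.separable_def]
  have hne : 4 - t ^ 2 ≠ 0 := sub_ne_zero.2 (Ne.symm ht)
  have hder : derivative (X ^ 2 - C t * X + 1 : K[X]) = 2 * X - C t := by
    simp [Polynomial.derivative_pow]
    exact map_ofNat (C : K →+* K[X]) 2
  rw [hder]
  refine ⟨C ((4 - t ^ 2)⁻¹) * 4, -(C ((4 - t ^ 2)⁻¹) * (2 * X - C t)), ?_⟩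
  have h2 : C ((4 - t ^ 2)⁻¹) * (4 - C t ^ 2) = (1 : K[X]) := by
    have : (4 - C t ^ 2 : K[X]) = C (4 - t ^ 2) := by
      simp
      exact (map_ofNat (C : K →+* K[X]) 4).symm
    rw [this, ← C_mul, inv_mul_cancel₀ hne, C_1]
  linear_combination h2

lemma comp_sq_not_center {K : Type} [Field K] (t : K) (ht : t ≠ 0) :
    (QuotientGroup.mk (comp t) : PSL K) ^ 2 ≠ 1 := by
  intro h
  rw [← QuotientGroup.mk_pow, QuotientGroup.eq_one_iff,
    Matrix.SpecialLinearGroup.mem_center_iff] at h
  obtain ⟨r, _, hr⟩ := h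
  have h1 := congrFun (congrFun hr 1) 0
  rw [Matrix.SpecialLinearGroup.coe_pow] at h1
  simp [comp, pow_two] at h1
  exact ht h1.symm

/-- If a word value equals the class of `M` in `PSL₂(K)` then its trace is `± tr M`. -/
lemma lift_trace {K : Type} [Field K] (w : FreeGroup (Fin 2)) (x y : PSL K)
    (M : SpecialLinearGroup (Fin 2) K) (h : wordMap w x y = QuotientGroup.mk M) :
    ∃ X Y : SpecialLinearGroup (Fin 2) K,
      tr (wordMap w X Y) = tr M ∨ tr (wordMap w X Y) = - tr M := by
  obtain ⟨X, rfl⟩ := QuotientGroup.mk_surjective x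
  obtain ⟨Y, rfl⟩ := QuotientGroup.mk_surjective y
  refine ⟨X, Y, ?_⟩
  have h1 : wordMap w (QuotientGroup.mk X : PSL K) (QuotientGroup.mk Y) =
      (QuotientGroup.mk (wordMap w X Y) : PSL K) := by
    have h2 : (FreeGroup.lift ![(QuotientGroup.mk X : PSL K), QuotientGroup.mk Y]) =
        (QuotientGroup.mk' (Subgroup.center (SpecialLinearGroup (Fin 2) K))).comp
          (FreeGroup.lift ![X, Y]) := by
      ext i
      fin_cases i <;> simp
    simp only [wordMap]
    rw [h2]
    rfl
  rw [h1, eq_comm, QuotientGroup.eq, Matrix.SpecialLinearGroup.mem_center_iff] at h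
  obtain ⟨r, hr, hr'⟩ := h
  rw [Fintype.card_fin] at hr
  set N := M⁻¹ * wordMap w X Y with hN
  have hmxN : mx N = r • 1 := by
    change (N : Matrix (Fin 2) (Fin 2) K) = _
    rw [← hr']
    ext i j
    simp [Matrix.scalar_apply, Matrix.smul_apply, Matrix.one_apply, Matrix.diagonal_apply]
  have hW : wordMap w X Y = M * N := by rw [hN]; group
  have htr : tr (wordMap w X Y) = r * tr M := by
    rw [hW, tr, map_mul, hmxN, mul_smul_comm, mul_one, trace_smul]
    rfl
  have : (r - 1) * (r + 1) = 0 := by linear_combination hr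
  rcases mul_eq_zero.1 this with h' | h'
  · left
    have : r = 1 := by linear_combination h'
    rw [htr, this, one_mul]
  · right
    have : r = -1 := by linear_combination h'
    rw [htr, this]; ring

/-- **Negative answer to Q1 for type `A₁` in every characteristic.**  For every prime `p` there is a
word `w ∈ F₂` that is not a power word such that for *every* finite field `K` of characteristic `p`
with more than five elements some regular semisimple element `g` of `PSL₂(K)`, which moreover is not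
an involution, is not a value of the word map of `w`. -/
theorem result (p : ℕ) [Fact p.Prime] :
    ∃ w : FreeGroup (Fin 2), ¬ IsPowerWord w ∧
      ∀ (K : Type) [Field K] [Finite K] [CharP K p], 5 < Nat.card K →
        ∃ g : PSL K, IsRegularSemisimple p g ∧ g ^ 2 ≠ 1 ∧
          ∀ x y : PSL K, wordMap w x y ≠ g := by
  have hp : p.Prime := Fact.out
  rcases hp.eq_two_or_odd' with rfl | hodd
  · -- characteristic two
    refine ⟨wE, wE_not_power, ?_⟩
    intro K _ _ _ _
    have h2 : (2 : K) = 0 := by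
      have := CharP.cast_eq_zero K 2
      exact_mod_cast this
    have h4 : (4 : K) = 0 := by
      have : (4 : K) = 2 * 2 := by norm_num
      rw [this, h2, mul_zero]
    obtain ⟨t, ht⟩ : ∃ t : K, ∀ z : K, z ^ 3 + z ≠ t := by
      by_contra hcon
      push Not at hcon
      have hsurj : Function.Surjective (fun z : K => z ^ 3 + z) := hcon
      have hinj := Finite.injective_iff_surjective.2 hsurj
      have h01 : (fun z : K => z ^ 3 + z) 0 = (fun z : K => z ^ 3 + z) 1 := by
        change (0 : K) ^ 3 + 0 = 1 ^ 3 + 1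
        linear_combination -h2
      exact zero_ne_one (hinj h01)
    have ht0 : t ≠ 0 := by
      intro h
      exact ht 0 (by rw [h]; ring)
    have hsep := comp_separable t (by rw [h4]; exact pow_ne_zero 2 ht0)
    refine ⟨QuotientGroup.mk (comp t), ⟨coprime_of_separable 2 K _ hsep, comp t, rfl, hsep⟩,
      comp_sq_not_center t ht0, ?_⟩
    intro x y hxy
    obtain ⟨X, Y, hXY⟩ := lift_trace wE x y (comp t) hxy
    rw [tr_comp] at hXY
    have hneg : -t = t := by
      linear_combination -t * h2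
    rw [hneg, or_self, wordMap_wE, tr_wordEven h2 _ _ (tr_conj Y X).symm] at hXY
    exact ht _ hXY
  · -- odd characteristic
    refine ⟨wO, wO_not_power, ?_⟩
    intro K _ _ _ hK
    have h2 : (2 : K) ≠ 0 := by
      intro h
      have h' : ((2 : ℕ) : K) = 0 := by exact_mod_cast h
      rw [CharP.cast_eq_zero_iff K p] at h'
      have := (Nat.prime_dvd_prime_iff_eq hp Nat.prime_two).1 h'
      rw [this] at hodd
      exact absurd hodd (by decide)
    obtain ⟨a, ha, ha', ha2⟩ := exists_nonsq K h2 hK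
    have ht0 : a - 2 ≠ 0 := sub_ne_zero.2 ha2
    have hsep : ((comp (a - 2) : SpecialLinearGroup (Fin 2) K) :
        Matrix (Fin 2) (Fin 2) K).charpoly.Separable := by
      apply comp_separable
      intro h
      have : a * (a - 4) = 0 := by linear_combination h
      rcases mul_eq_zero.1 this with h' | h'
      · exact ha (by rw [h']; exact ⟨0, by simp⟩)
      · have : a = 4 := by linear_combination h'
        exact ha (by rw [this]; exact ⟨2, by norm_num⟩)
    refine ⟨QuotientGroup.mk (comp (a - 2)),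
      ⟨coprime_of_separable p K _ hsep, comp (a - 2), rfl, hsep⟩,
      comp_sq_not_center _ ht0, ?_⟩
    intro x y hxy
    obtain ⟨X, Y, hXY⟩ := lift_trace wO x y (comp (a - 2)) hxy
    rw [tr_comp, wordMap_wO, tr_wordOdd _ _ (tr_conj Y X).symm] at hXY
    rcases hXY with h | h
    · obtain ⟨Q, hQ⟩ : ∃ Q : K, Q ^ 2 - 2 = a - 2 := ⟨_, h⟩
      exact ha ⟨Q, by linear_combination -hQ⟩
    · obtain ⟨Q, hQ⟩ : ∃ Q : K, Q ^ 2 - 2 = -(a - 2) := ⟨_, h⟩
      exact ha' ⟨Q, by linear_combination -hQ⟩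

end Pool.Agent.Results.MP_11bee9_al.TypeA1EveryPrime
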